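import Mathlib
import Pool.Agent.Helper78_ACIT.Circuit

set_option autoImplicit false

/-! Definitions of the squad BSH (identity test for all circuits with linearly many
multiplications). -/

namespace Pool.Agent.BSH

open MvPolynomial Pool.Agent.Helper78_ACIT

/-- The linear combinations of `1`, of the elements of `B` and of the entries of `l`. -/
def sp (E : Type) {A : Type} [Field E] [CommRing A] [Algebra E A] (B : Set A) (l : List A) :
    Submodule E A :=
  Submodule.span E ({1} ∪ B ∪ {x | x ∈ l})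

/-- A computation from `B`, the last product first: each entry is the product of two linear
combinations of `1`, of the elements of `B` and of the entries behind it. -/
def Ch (E : Type) {A : Type} [Field E] [CommRing A] [Algebra E A] (B : Set A) : List A → Prop
  | [] => True
  | g :: l => Ch E B l ∧ ∃ a ∈ sp E B l, ∃ b ∈ sp E B l, g = a * b

/-- The variables `x_0, ..., x_(n-1)`. -/
def vs (E : Type) [Field E] (n : ℕ) : Set (MvPolynomial ℕ E) :=
  {x | ∃ i < n, x = X i}

/-- `F` can be computed from `x_0, ..., x_(n-1)` with at most `s` multiplications (linear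
combinations are free). -/
def IsCheap (E : Type) [Field E] (n s : ℕ) (F : MvPolynomial ℕ E) : Prop :=
  ∃ l : List (MvPolynomial ℕ E), l.length ≤ s ∧ Ch E (vs E n) l ∧ F ∈ sp E (vs E n) l

/-- One level of the generator: `3 r` values `t` are extended by the `r` values
`∑ m < 3 r, (m + 1) ^ j t_m ^ (2 ^ q)`, `j < r`. -/
def level {A : Type} [CommRing A] (r q : ℕ) (t : ℕ → A) (i : ℕ) : A :=
  if i < 3 * r then t i
  else if i < 4 * r then
    ∑ m ∈ Finset.range (3 * r), ((m : A) + 1) ^ (i - 3 * r) * t m ^ 2 ^ q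
  else 0

/-- The generator with `l` levels, `3 ^ l ν` seeds `t` and `4 ^ l ν` values. -/
def gen {A : Type} [CommRing A] : ℕ → ℕ → ℕ → (ℕ → A) → ℕ → A
  | 0, _, _, t => t
  | l + 1, σ, ν, t => level (4 ^ l * ν) (7 + 3 * σ) (gen l (14 * σ + 28) (3 * ν) t)

/-- `2 ^ qq l σ` is the degree of the generator. -/
def qq : ℕ → ℕ → ℕ
  | 0, _ => 0
  | l + 1, σ => 7 + 3 * σ + qq l (14 * σ + 28)

/-- The extension by zero. -/
def ext {A : Type} [CommRing A] {N : ℕ} (ξ : Fin N → A) (i : ℕ) : A :=
  if h : i < N then ξ ⟨i, h⟩ else 0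

/-- The value of the circuit `G` modulo `p` at the point of the generator with the seeds `ξ`. -/
def testValue (l σ ν p N : ℕ) (ξ : Fin (3 ^ l * ν) → Fin N) (G : List Gate) : ZMod p :=
  out (gen l σ ν (ext fun j => ((ξ j : ℕ) : ZMod p))) G

/-- The gate is a product. -/
def isMul : Gate → Bool
  | .mul _ _ => true
  | _ => false

/-- The substitution `w_j -> ε w_j`, `w_j = x_(k+j)`, `j < r`; `ε` is the variable of the outer
polynomial ring. -/
noncomputable def th (E : Type) [Field E] (k r : ℕ) :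
    MvPolynomial ℕ E →ₐ[E] Polynomial (MvPolynomial ℕ E) :=
  aeval fun i => if k ≤ i ∧ i < k + r then Polynomial.X * Polynomial.C (X i)
    else Polynomial.C (X i)

/-- `z_i = ∑ j < r, a_ij ∂Φ/∂w_j`. -/
noncomputable def zz {E : Type} [Field E] (k r : ℕ) (a : ℕ → ℕ → E) (Φ : MvPolynomial ℕ E)
    (i : ℕ) : MvPolynomial ℕ E :=
  ∑ j ∈ Finset.range r, C (a i j) * pderiv (k + j) Φ

/-- `y_i = ∂Φ/∂t_i - d t_i ^ (d - 1) z_i`. -/
noncomputable def yy {E : Type} [Field E] (k r d : ℕ) (a : ℕ → ℕ → E) (Φ : MvPolynomial ℕ E)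
    (i : ℕ) : MvPolynomial ℕ E :=
  pderiv i Φ - C (d : E) * X i ^ (d - 1) * zz k r a Φ i

/-- Any `r` of the vectors `(a_i0, ..., a_i(r-1))`, `i < k`, are linearly independent. -/
def Minors {E : Type} [Field E] (k r : ℕ) (a : ℕ → ℕ → E) : Prop :=
  ∀ f : Fin r → ℕ, Function.Injective f → (∀ x, f x < k) →
    (Matrix.of fun x y : Fin r => a (f x) y).det ≠ 0

/-- The substitution `u_j = ∑ m < k, a_mj t_m ^ d`, `u_j = x_(k+j)`. -/
noncomputable def sub {E : Type} [Field E] (k r d : ℕ) (a : ℕ → ℕ → E) :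
    MvPolynomial ℕ E →ₐ[E] MvPolynomial ℕ E :=
  aeval fun i => if k ≤ i ∧ i < k + r then ∑ m ∈ Finset.range k, C (a m (i - k)) * X m ^ d
    else X i

/-- The change of coordinates `u_j = w_j + ∑ m < k, a_mj t_m ^ d`. -/
noncomputable def shf {E : Type} [Field E] (k r d : ℕ) (a : ℕ → ℕ → E) :
    MvPolynomial ℕ E →ₐ[E] MvPolynomial ℕ E :=
  aeval fun i => if k ≤ i ∧ i < k + r then X i + ∑ m ∈ Finset.range k, C (a m (i - k)) * X m ^ d
    else X i

end Pool.Agent.BSH
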