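import Mathlib
import Pool.Agent.BSH.Defs
import Pool.Agent.Helper12_UO.Transfer

set_option autoImplicit false

/-! Statements of the rows of the squad BSH (MP_b2b50d_lc, note 3623): deterministic black-box
identity test for all circuits with linearly many multiplications, `Δ ^ (ε n)` points. -/

namespace Pool.Agent.BSH

open MvPolynomial Pool.Agent.Helper78_ACIT

/-- Row BST (Baur-Strassen). All derivatives of a polynomial computed with `s` products are computed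
with `2 s` further products.

Proof. Let `Ch E B L`, `L` the computation reached so far. Claim, by induction on `l` with
`Ch E B l`, `sp E B l ≤ sp E B L`: for all multipliers `c_g ∈ sp E B L` (one for each entry `g` of
`l`; a list of the same length) there is `l'`, `l'.length ≤ 2 * l.length`, `Ch E B (l' ++ L)`, such
that for all the derivations `D` in question `∑ c_g D g ∈ sp E B (l' ++ L)`. For `l = []` clear. For
`g :: l`, `g = a * b`: `c D(a b) = (c b) D a + (c a) D b`; put `P = c b`, `Q = c a`, two new products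
(`c, a, b ∈ sp E B L`). `a = α + ∑ λ_h h` (`h` in `l`, `α ∈ sp E B []`), `D α` is a constant, so
`P D a = const P + ∑ λ_h P D h`, the same for `Q D b`; add `λ_h P + μ_h Q ∈ sp E B (P :: Q :: L)` to
the multiplier of `h` and apply the induction hypothesis. (The `λ`, `μ` do not depend on `D`; choose
them from `a ∈ sp E B l`.) Apply this with `F = α + ∑ c_g g`, `c_g` constants. -/
def BstStmt : Prop :=
  ∀ (E A : Type) [Field E] [CommRing A] [Algebra E A] (B : Set A) (l : List A) (F : A),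
    Ch E B l → F ∈ sp E B l →
    ∃ l' : List A, l'.length ≤ 2 * l.length ∧ Ch E B (l' ++ l) ∧
      ∀ D : Derivation E A A, (∀ x ∈ B, ∃ c : E, D x = algebraMap E A c) → D F ∈ sp E B (l' ++ l)

/-- Row HIL (Hilbert function of one extension). `W' = W + E g`, `g ∈ W ^ δ` (or `D < δ`):
`dim W' ^ D ≤ ∑ i < δ, i ≤ D, dim W ^ (D - i)`.

Proof. If `g = 0`, then `W' = W`, and the term `i = 0` suffices. Let `g ≠ 0`, `f'(D) = dim W' ^ D`.
`f'(0) = dim W ^ 0`. `W' ^ (D+1) = W ^ (D+1) + g W' ^ D` (induction on `D`: `W' = W + E g`,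
`W W' ^ D = W (W ^ D + g W' ^ (D-1)) ⊆ W ^ (D+1) + g W' ^ D`). The dimension of the sum plus the
dimension of the intersection is the sum of the dimensions, `dim g W' ^ D = f'(D)`. If `D + 1 ≥ δ`
(and `g ∈ W ^ δ`) the intersection contains `g W ^ (D + 1 - δ)` (`1 ∈ W`, so `W ^ (D+1-δ) ⊆ W' ^ D`).
So `f'(D+1) + dim W ^ (D+1-δ) ≤ dim W ^ (D+1) + f'(D)`, and `f'(D+1) ≤ dim W ^ (D+1) + f'(D)` for
`D + 1 < δ`. Induction on `D`. -/
def HilStmt : Prop :=
  ∀ (E A : Type) [Field E] [CommRing A] [IsDomain A] [Algebra E A] (W : Submodule E A) (g : A)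
    (δ D : ℕ), Module.Finite E W → (1 : A) ∈ W → 1 ≤ δ → (g ∈ W ^ δ ∨ D < δ) →
    Module.finrank E ((W ⊔ Submodule.span E {g}) ^ D : Submodule E A) ≤
      ∑ i ∈ Finset.range δ, if i ≤ D then Module.finrank E (W ^ (D - i) : Submodule E A) else 0

/-- Row HBD. The dimension of the space of the polynomials of degree `D` in the variables, the
elements of `L1` (polynomials of degree `d`) and the products `l`.

Proof. HIL. First the variables: `W_0 = E 1`, `W_(m+1) = W_m + E x_m`, `δ = D + 1`: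
`dim W_m ^ D ≤ C(D + m, m)` (`∑ i ≤ D, C(i + m, m) = C(D + m + 1, m + 1)`). Then the elements of `L1`
with `δ = d` (`u ∈ (sp E (vs E n) []) ^ d ⊆ W ^ d`): a factor `d` each, as
`C(D - i + n, n) ≤ C(D + n, n)`. Then the products, `δ = 2`: a factor `2` each. -/
def HbdStmt : Prop :=
  ∀ (E : Type) [Field E] (n d : ℕ) (L1 l : List (MvPolynomial ℕ E)), 1 ≤ d →
    (∀ u ∈ L1, u ∈ (sp E (vs E n) []) ^ d) → Ch E (vs E n ∪ {x | x ∈ L1}) l →
    ∀ D, Module.finrank E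
      ((sp E (vs E n ∪ {x | x ∈ L1}) l) ^ D : Submodule E (MvPolynomial ℕ E)) ≤
      d ^ L1.length * 2 ^ l.length * (D + n).choose n

/-- Row IND. Polynomials the lowest terms (with respect to `Θ`, in the outer variable) of which are a
fixed nonzero polynomial times different monomials are linearly independent.

Proof. Let `∑ e_β b β = 0` with some `e_β ≠ 0`. Take the least `M + wt β` with `e_β ≠ 0`, apply `Θ` and
compare the coefficients of this power: `∑ e_β c_β Ψ x^β = 0` over the `β` with this weight, so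
`e_β c_β = 0` (cancel `Ψ`, monomials are independent). -/
def IndStmt : Prop :=
  ∀ (E : Type) [Field E] (Θ : MvPolynomial ℕ E →ₐ[E] Polynomial (MvPolynomial ℕ E))
    (Ω : Finset (ℕ →₀ ℕ)) (wt : (ℕ →₀ ℕ) → ℕ) (M : ℕ) (Ψ : MvPolynomial ℕ E)
    (c : (ℕ →₀ ℕ) → E) (b : (ℕ →₀ ℕ) → MvPolynomial ℕ E), Ψ ≠ 0 → (∀ β ∈ Ω, c β ≠ 0) →
    (∀ β ∈ Ω, ∃ Q : Polynomial (MvPolynomial ℕ E), Θ (b β) = Polynomial.X ^ (M + wt β) *
      (Polynomial.C (Ψ * monomial β (c β)) + Polynomial.X * Q)) →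
    LinearIndependent E (fun β : Ω => b β)

/-- Row LOW (the lowest parts of `z_i` and `y_i`). `Φ ≠ 0`, `Φ(t, 0) = 0`.

Proof. `th = th E k r` is injective (set the outer variable equal to `1`). Let `e` be the order
(natTrailingDegree) of `th Φ` and `Φ_e` its lowest coefficient, `e ≥ 1` by hypothesis; `M = e - 1`.
Rules: for a coefficientwise derivation, `∂_w (th Φ) = ε th (∂_w Φ)` for `w = x_(k+j)`, `j < r`, and
`∂_i (th Φ) = th (∂_i Φ)` for `i < k`. So the coefficient of `ε ^ (e - 1)` in `th (∂_w Φ)` is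
`∂_w Φ_e`, lower ones are `0`, and `th (∂_i Φ)` is divisible by `ε ^ e`. Put
`ζ_i = ∑ j, a_ij ∂_(k+j) Φ_e`, `bad` the set of the `i < k` with `ζ_i = 0`. If `bad` has at least `r`
elements, take `r` of them: the matrix of the `a_ij` is invertible, so `∂_(k+j) Φ_e = 0` for all
`j < r`; in characteristic `0` `Φ_e` does not contain the `x_(k+j)`, so `th Φ_e = C Φ_e`; but
`th Φ_e = ε ^ e C Φ_e` (`Φ_e` is homogeneous of degree `e` in `w`: apply `th` twice, or compare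
monomials), `e ≥ 1`: contradiction. -/
def LowStmt : Prop :=
  ∀ (E : Type) [Field E] [CharZero E] (k r d : ℕ) (a : ℕ → ℕ → E) (Φ : MvPolynomial ℕ E),
    Minors k r a → Φ ≠ 0 → (th E k r Φ).coeff 0 = 0 →
    ∃ (M : ℕ) (bad : Finset ℕ) (ζ : ℕ → MvPolynomial ℕ E), bad.card < r ∧
      ∀ i < k, i ∉ bad → ζ i ≠ 0 ∧
        (∃ Q : Polynomial (MvPolynomial ℕ E), th E k r (zz k r a Φ i) =
          Polynomial.X ^ M * (Polynomial.C (ζ i) + Polynomial.X * Q)) ∧
        ∃ Q : Polynomial (MvPolynomial ℕ E), th E k r (yy k r d a Φ i) = Polynomial.X ^ M *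
          (Polynomial.C (-(C (d : E) * X i ^ (d - 1) * ζ i)) + Polynomial.X * Q)

/-- Row BIN. `C(N + n, n) ≤ (N + n) ^ n / n!` and `n ^ n ≤ 3 ^ n n!`. -/
def BinStmt : Prop :=
  ∀ n k d D0 : ℕ, 1 ≤ d → k ≤ n →
    (n * D0 + k * (d - 2) + n).choose n ≤ 3 ^ n * (D0 + d) ^ n

/-- Row LIM. `((D0 + d) / (D0 + 1)) ^ n` tends to `1`. -/
def LimStmt : Prop :=
  ∀ n d x y : ℕ, (∀ D0 : ℕ, (D0 + 1) ^ n * x ≤ y * (D0 + d) ^ n) → x ≤ y

/-- Row FAM (the independent family). `G = #good`. In a space `W ∋ 1` which contains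
`x_0, ..., x_(n-1)` (`n = k + r`) and the `z_i`, `y_i`, `i < k`, the dimension of
`W ^ (n D0 + k (d - 2))` is at least `(D0 + 1) ^ n (d - 1) ^ (k + 1 - r)`.

Proof. LOW, then IND with `Θ = th E k r`, `wt β = ∑ j < r, β (k + j)`, `M = (number of good i) D0 M_0`,
`Ψ = (∏ i good, ζ_i) ^ D0`, `c β = ∏ i good, (-d) ^ (β i / (d - 1))`, `Ω` the set of the `β` with
support in `{0..n-1}` and `β i < (D0 + 1) (d - 1)` for good `i < k`, `β i < D0 + 1` for the bad
`i < k` and for `k ≤ i < n`, and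
`b β = ∏ i good, y_i ^ (β i / (d-1)) z_i ^ (D0 - β i / (d-1)) x_i ^ (β i % (d-1)) ∏ i other, x_i ^ (β i)`.
`th (x_i) = C x_i` for `i < k`, `ε C x_i` for `k ≤ i < n`. Products of `(C a + ε Q)` have the form
`C (∏ a) + ε Q'`. Each `b β` is a product of at most `n D0 + k (d - 2)` elements of `W` (`1 ∈ W`). The
number of the `β` is `(D0 + 1) ^ n (d - 1) ^ (#good)`, `#good ≥ k - (r - 1)`. -/
def FamStmt : Prop :=
  ∀ (E : Type) [Field E] [CharZero E] (k r d D0 : ℕ) (a : ℕ → ℕ → E) (Φ : MvPolynomial ℕ E)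
    (W : Submodule E (MvPolynomial ℕ E)), 2 ≤ d → Minors k r a → Φ ≠ 0 →
    (th E k r Φ).coeff 0 = 0 → Module.Finite E W → 1 ∈ W → (∀ i < k + r, X i ∈ W) →
    (∀ i < k, zz k r a Φ i ∈ W ∧ yy k r d a Φ i ∈ W) →
    (D0 + 1) ^ (k + r) * (d - 1) ^ (k + 1 - r) ≤
      Module.finrank E (W ^ ((k + r) * D0 + k * (d - 2)) : Submodule E (MvPolynomial ℕ E))

/-- Row CHR (chain rule for the change of coordinates `shf`). `Φ = shf F`.

Proof. `∂_i (shf F) = ∑ v, shf (∂_v F) ∂_i (shf x_v)` (a finite sum over the variables of `F`;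
`MvPolynomial.induction_on`). For `i < k`: `∂_i (shf x_i) = 1`, `∂_i (shf x_(k+j)) = a_ij d x_i ^ (d-1)`.
For `i = k + j`: only `v = i` contributes, with `1`. -/
def ChrStmt : Prop :=
  ∀ (E : Type) [Field E] (k r d : ℕ) (a : ℕ → ℕ → E) (F : MvPolynomial ℕ E),
    (∀ j < r, pderiv (k + j) (shf k r d a F) = shf k r d a (pderiv (k + j) F)) ∧
    (∀ i < k, yy k r d a (shf k r d a F) i = shf k r d a (pderiv i F)) ∧
    (F ≠ 0 → shf k r d a F ≠ 0) ∧
    (sub k r d a F = 0 → (th E k r (shf k r d a F)).coeff 0 = 0)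

/-- Row MAP (computations and homomorphisms). -/
def MapStmt : Prop :=
  ∀ (E A A' : Type) [Field E] [CommRing A] [Algebra E A] [CommRing A'] [Algebra E A']
    (φ : A →ₐ[E] A') (B : Set A) (B' : Set A') (l : List A) (l' : List A'),
    Ch E B l → Ch E B' l' → (∀ x ∈ B, φ x ∈ sp E B' l') →
    Ch E B' (l.map φ ++ l') ∧ ∀ F ∈ sp E B l, φ F ∈ sp E B' (l.map φ ++ l')

/-- Row MAI (MAIN LEMMA). If `F ≠ 0` is computed with `s` multiplications and vanishes for
`u_j = ∑ m, a_mj t_m ^ d`, then `(d - 1) ^ (k + 1 - r) ≤ 8 ^ s d ^ r 3 ^ (k + r)`.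

Proof. BST for `F` over the base of the variables, `D = pderiv i`: a computation `l' ++ l` with at most
`3 s` products such that all `∂_i F` are in its span. MAP with `φ = shf k r d a`, `B' = vs E n ∪ L1`,
`L1` the list of the `r` elements `shf (x_(k+j)) ∈ (sp E (vs E n) []) ^ d` (`d ≥ 1`), `l' = []`. Let
`W = sp E B' (map φ (l' ++ l))`, `Φ = shf F`; by CHR `z_i, y_i ∈ W`. HBD with `D = n D0 + k (d - 2)`,
`n = k + r`, FAM, BIN: `(D0 + 1) ^ n (d - 1) ^ (k + 1 - r) ≤ d ^ r 2 ^ (3 s) 3 ^ n (D0 + d) ^ n` for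
all `D0`. LIM. -/
def MaiStmt : Prop :=
  ∀ (E : Type) [Field E] [CharZero E] (k r d s : ℕ) (a : ℕ → ℕ → E) (F : MvPolynomial ℕ E),
    2 ≤ d → Minors k r a → IsCheap E (k + r) s F → F ≠ 0 → sub k r d a F = 0 →
    (d - 1) ^ (k + 1 - r) ≤ 8 ^ s * d ^ r * 3 ^ (k + r)

/-- Row LVL (one level). MAI with `k = 3 r`, `d = 2 ^ q`, `a_mj = (m + 1) ^ j` (Vandermonde);
`sub` and `aeval (level r q X)` agree on polynomials in `x_0, ..., x_(4r-1)`;
`(2 ^ q - 1) ^ (2 r + 1) > 8 ^ s 2 ^ (q r) 3 ^ (4 r)`, as `q ≥ 7`, `(2 ^ q - 1) ^ 2 ≥ 2 ^ (2 q) 81 / 128`,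
`8 ^ s ≤ 2 ^ (q r - 7 r)`. -/
def LvlStmt : Prop :=
  ∀ (E : Type) [Field E] [CharZero E] (r q s : ℕ) (F : MvPolynomial ℕ E), 1 ≤ r →
    3 * s + 7 * r ≤ q * r → IsCheap E (4 * r) s F → F ≠ 0 →
    (aeval (level r q X) F : MvPolynomial ℕ E) ≠ 0

/-- Row CST (cost of one level). `q` squarings for each of the `3 r` variables, then MAP. -/
def CstStmt : Prop :=
  ∀ (E : Type) [Field E] (r q s : ℕ) (F : MvPolynomial ℕ E), IsCheap E (4 * r) s F →
    IsCheap E (3 * r) (s + 3 * r * q) (aeval (level r q X) F)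

/-- Row NAT (the generator commutes with homomorphisms and depends only on `3 ^ l ν` seeds; the
values at places `≥ 4 ^ l ν` are zero if there is a level). -/
def NatStmt : Prop :=
  (∀ (A A' : Type) [CommRing A] [CommRing A'] (φ : A →+* A') (l σ ν : ℕ) (t : ℕ → A) (i : ℕ),
    φ (gen l σ ν t i) = gen l σ ν (fun m => φ (t m)) i) ∧
  (∀ (A : Type) [CommRing A] (l σ ν : ℕ) (t t' : ℕ → A), (∀ m < 3 ^ l * ν, t m = t' m) →
    ∀ i < 4 ^ l * ν, gen l σ ν t i = gen l σ ν t' i) ∧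
  (∀ (A : Type) [CommRing A] (l σ ν : ℕ) (t : ℕ → A), ∀ i, 4 ^ (l + 1) * ν ≤ i →
    gen (l + 1) σ ν t i = 0)

/-- Row REC (all levels). Induction on `l`: `r = 4 ^ l ν`, `q = 7 + 3 σ`, `F' = aeval (level r q X) F`
is not zero (LVL, `3 σ r + 7 r = q r`) and is computed with
`σ r + 3 r q = (10 σ + 21) r ≤ (14 σ + 28) 4 ^ (l-1) (3 ν)` multiplications from
`3 r = 4 ^ l (3 ν)` variables (CST); `gen (l + 1) = level ∘ gen l` and NAT. -/
def RecStmt : Prop :=
  ∀ (E : Type) [Field E] [CharZero E] (l σ ν : ℕ) (F : MvPolynomial ℕ E), 1 ≤ ν →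
    IsCheap E (4 ^ (l + 1) * ν) (σ * 4 ^ l * ν) F → F ≠ 0 →
    (aeval (gen (l + 1) σ ν X) F : MvPolynomial ℕ E) ≠ 0

/-- Row HIT (the generator hits all products of cheap polynomials). REC for each factor, the product
of the `aeval (gen ..) F` is not zero, a point `x : ℕ → E` where it does not vanish (`E` is
infinite), NAT: `gen (ext ξ) = gen x` for `ξ` the restriction of `x`. -/
def HitStmt : Prop :=
  ∀ (E : Type) [Field E] [CharZero E] (l σ ν : ℕ) (L : List (MvPolynomial ℕ E)), 1 ≤ ν →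
    (∀ F ∈ L, IsCheap E (4 ^ (l + 1) * ν) (σ * 4 ^ l * ν) F) → L.prod ≠ 0 →
    ∃ ξ : Fin (3 ^ (l + 1) * ν) → E, eval (gen (l + 1) σ ν (ext ξ)) L.prod ≠ 0

/-- Row IHT (a small integer point where a factor does not vanish; copy of
`Pool.Agent.SXF.H34.iht`). The degree of each value of the generator in each seed is at most
`2 ^ qq l σ`. -/
def IhtStmt : Prop :=
  ∀ (E : Type) [Field E] [CharZero E] (l σ ν Δ : ℕ) (P : MvPolynomial ℕ ℤ), P.totalDegree ≤ Δ →
    ∀ Q : MvPolynomial ℕ E,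
    (∃ ξ : Fin (3 ^ l * ν) → E, eval (gen l σ ν (ext ξ)) Q ≠ 0) →
    map (Int.castRingHom E) P ∣ Q →
    ∃ ξ : Fin (3 ^ l * ν) → ℕ, (∀ j, ξ j ≤ Δ * 2 ^ qq l σ) ∧
      eval (gen l σ ν (ext fun j => (ξ j : ℤ))) P ≠ 0

/-- Row SIZ (the size of the values of the generator). Induction on `l`: with `r = 4 ^ l ν`,
`(3 r) ^ (r + 1) ≤ 2 ^ (16 r ^ 2)`. -/
def SizStmt : Prop :=
  ∀ (l σ ν N : ℕ) (ξ : Fin (3 ^ l * ν) → ℕ), (∀ j, ξ j ≤ N) → ∀ i,
    (gen l σ ν (ext fun j => (ξ j : ℤ)) i).natAbs ≤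
      2 ^ (2 ^ qq l σ * (l * (4 ^ l * ν) ^ 2 + N))

/-- Row QQB. `4 qq l σ ≤ (σ + 3) 14 ^ l`. (Induction: prove
`4 qq l σ + 2 (14 ^ l - 1)... `, or `13 qq l σ = 7 l + 3 (σ + 28 / 13) (14 ^ l - 1)`.) -/
def QqbStmt : Prop := ∀ l σ : ℕ, 4 * qq l σ ≤ (σ + 3) * 14 ^ l

/-- Row TST (the test; copy of `Pool.Agent.SXF.H96.tst`). From IHT and SIZ: small integer points
(`ξ j ≤ Δ 2 ^ qq l σ ≤ N`), and a small prime. -/
def TstStmt : Prop :=
  ∀ (E : Type) [Field E] [CharZero E] (l σ ν : ℕ), ∀ P : MvPolynomial ℕ E → Prop,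
    (∀ F, P F → F ≠ 0 → ∃ ξ : Fin (3 ^ l * ν) → E, eval (gen l σ ν (ext ξ)) F ≠ 0) →
    ∀ (Δ b N : ℕ) (G : List Gate), Δ * 2 ^ qq l σ ≤ N → WellFormed G →
      (poly G = 0 ∨ ((poly G).totalDegree ≤ Δ ∧ Pool.Agent.UO.length (poly G) ≤ 2 ^ b ∧
        ∃ F : MvPolynomial ℕ E, P F ∧ F ≠ 0 ∧ map (Int.castRingHom E) (poly G) ∣ F)) →
      (G ∈ ACIT ↔ ∀ p, p.Prime → p ≤ 64 * (b + N * (l * (4 ^ l * ν) ^ 2 + N) + 1) ^ 2 →
        ∀ ξ : Fin (3 ^ l * ν) → Fin (N + 1), testValue l σ ν p (N + 1) ξ G = 0)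

/-- Row CIR (circuits are cheap). The gates of `G` in their order; only the gates `mul` give
products. -/
def CirStmt : Prop :=
  ∀ (E : Type) [Field E] (n s : ℕ) (G : List Gate), WellFormed G →
    (∀ v, Gate.var v ∈ G → v < n) → G.countP isMul ≤ s →
    IsCheap E n s (map (Int.castRingHom E) (poly G))

end Pool.Agent.BSH
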